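import Pool.Agent.Lib.MP_c28bf6_an.Mir.P.LAP
import Pool.Agent.Lib.MP_c28bf6_an.Mir.P.EXPI
import Pool.Agent.Lib.MP_c28bf6_an.Mir.P.PDA
import Pool.Agent.Lib.MP_c28bf6_an.Mir.P.ANG
import Pool.Agent.Lib.MP_c28bf6_an.Mir.P.ANGS
import Pool.Agent.Lib.MP_c28bf6_an.Mir.P.GEN
import Pool.Agent.Lib.MP_c28bf6_an.Mir.P.PD
import Pool.Agent.Lib.MP_c28bf6_an.Mir.P.CO
import Pool.Agent.Lib.MP_c28bf6_an.Mir.P.AS
import Pool.Agent.Lib.MP_c28bf6_an.Mir.P.RP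
import Pool.Agent.Lib.MP_c28bf6_an.Mir.P.DYN
import Pool.Agent.Lib.MP_c28bf6_an.Mir.P.INS
import Pool.Agent.Lib.MP_c28bf6_an.Mir.P.REV

/-!
# The mirror theorem for choreographies: assembly
-/

set_option autoImplicit false

namespace Pool.Agent.Lib.MP_c28bf6_an.Mir

theorem t_PDA : S_PDA := p_PDA p_LAP p_EXPI
theorem t_ANGS : S_ANGS := p_ANGS p_ANG
theorem t_PD : S_PD := p_PD t_PDA t_ANGS p_GEN
theorem t_AS : S_AS := p_AS t_PD p_CO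
theorem t_RP : S_RP := p_RP t_AS
theorem t_DYN : S_DYN := p_DYN t_RP
theorem t_INS : S_INS := p_INS t_DYN
theorem t_REV : S_REV := p_REV t_INS

end Pool.Agent.Lib.MP_c28bf6_an.Mir
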