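import Pool.Agent.Lib.MP_c28bf6_an.Convert2

/-!
# Mirror symmetric instants of choreographies: statements

Blueprint (helper60). MIRROR THEOREM. In dimension at most three: if at some time the configuration
is symmetric with respect to a hyperplane, `S q_i = q_(sigma i)`, then the masses are invariant under
the index shift `sigma i - i`. In particular a choreography with a time reversing reflection
symmetry has equal masses.

Every statement below is a `def S_XX : Prop` with its complete proof in the docstring; the piece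
`XX` is `theorem p_XX : S_XX` (with the hypotheses named in the request).
-/

open Finset MeasureTheory

namespace Pool.Agent.Lib.MP_c28bf6_an.Mir

/-- reflection in the hyperplane `⟪e, v⟫ = a` (`e` a unit vector) -/
noncomputable def mirror {E : Type*} [NormedAddCommGroup E] [InnerProductSpace ℝ E] (e : E) (a : ℝ)
    (v : E) : E :=
  v - (2 * (inner ℝ e v - a)) • e

/-- **[LAP]** Laplace transform of `t`. For `0 < c.re`: Mathlib has
`Complex.integral_cpow_mul_exp_neg_mul_Ioi` (with the exponent `a = 2`, `Gamma 2 = 1`) and for the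
integrability compare with `t * exp (-(c.re) t)` (norm of the integrand), e.g.
`Real.integrableOn_rpow_mul_exp_neg_mul_rpow` or `integrable_of_isBigO_exp_neg`, or use the
antiderivative `-(t / c + 1 / c^2) exp (-c t)` with `integral_Ioi_of_hasDerivAt_of_tendsto`. -/
def S_LAP : Prop :=
  ∀ c : ℂ, 0 < c.re →
    IntegrableOn (fun t : ℝ => (t : ℂ) * Complex.exp (-(c * (t : ℂ)))) (Set.Ioi 0) ∧
    ∫ t in Set.Ioi (0 : ℝ), (t : ℂ) * Complex.exp (-(c * (t : ℂ))) = (c ^ 2)⁻¹

/-- **[EXPI]** Distinct exponentials are linearly independent on `(0, ∞)`. By continuity the sum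
vanishes for all `t ≥ 0`. The maps `t ↦ exp (-(a j) t)` are monoid homomorphisms
`Multiplicative ℝ≥0 →* ℂ`, pairwise distinct because the `a j` are (if
`exp (-(a t)) = exp (-(b t))` for all `t ≥ 0`, differentiate at `0` from the right, or use that
`exp ((a - b) t) = 1` for all small `t` forces `a = b`: take `t` with `‖(a-b) t‖ < 1` and
`Complex.exp_eq_one_iff`); apply `linearIndependent_monoidHom`.
(Alternative: take `t = k * δ`, `k = 0, .., card - 1`, with `δ` so small that the numbers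
`exp (-(a j) δ)` are distinct, and use the Vandermonde determinant.) -/
def S_EXPI : Prop :=
  ∀ (ι : Type) [Fintype ι] (a : ι → ℂ) (v : ι → ℝ), Function.Injective a →
    (∀ t : ℝ, 0 < t → ∑ j, (v j : ℂ) * Complex.exp (-(a j * (t : ℂ))) = 0) → v = 0

/-- **[PDA]** The kernel `(a + conj b)^(-2)` is strictly positive definite on the right half plane.
For `0 < (a j).re` all `c = a j + conj (a k)` have positive real part, so by `S_LAP` and linearity of
the integral the double sum equals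
`∫ t in Ioi 0, t * (∑ j, v j exp (-(a j) t)) * conj (∑ k, v k exp (-(a k) t))
  = ∫ t in Ioi 0, t * ‖∑ j, v j exp (-(a j) t)‖^2`,
a real number `≥ 0` (write `g t = ∑ j, (v j : ℂ) * exp (-(a j * t))`; `conj (exp z) = exp (conj z)`,
`g t * conj (g t) = ‖g t‖^2`). If it is zero then, the integrand being continuous, nonnegative and
integrable on `(0, ∞)`, it vanishes for all `t > 0` (`setIntegral_eq_zero_iff_of_nonneg_ae` gives
a.e.; a continuous function that vanishes a.e. on the open set `Ioi 0` vanishes on it, e.g.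
`MeasureTheory.Measure.eqOn_open_of_ae_eq`), so `g t = 0` for all `t > 0` and `S_EXPI` applies. -/
def S_PDA : Prop :=
  ∀ (ι : Type) [Fintype ι] (a : ι → ℂ) (v : ι → ℝ), (∀ j, 0 < (a j).re) →
    0 ≤ (∑ j, ∑ k, ((v j * v k : ℝ) : ℂ) * ((a j + (starRingEnd ℂ) (a k)) ^ 2)⁻¹).re ∧
    ((∑ j, ∑ k, ((v j * v k : ℝ) : ℂ) * ((a j + (starRingEnd ℂ) (a k)) ^ 2)⁻¹).re = 0 →
      Function.Injective a → v = 0)

/-- **[ANG]** The angular integral. If `h = 0` both sides are `2 π / z^2`. Otherwise we may assume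
`h > 0` (both sides are even in `h`: substitute `θ ↦ θ + π`, or treat `h < 0` in the same way).
Put `D = √(z^2 + h^2)`.

Proof by residues: with `w = exp (i θ)` and `cos θ = (w + 1/w)/2` the integrand is
`(2 w / (i h (w - w1) (w - w2)))^2` with `w1 = i (z - D) / h`, `w2 = i (z + D) / h`,
`‖w1‖ = (D - z) / h < 1 < ‖w2‖`; so the integral is the circle integral over the unit circle of
`(w / (w - w2)^2) * (w - w1)^(-2)` times `(2 / (i h))^2 / i`, and Cauchy's formula for the derivative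
(`Complex.two_pi_I_inv_smul_circleIntegral_sub_sq_inv_smul_of_differentiable`) gives
`2 π i * (- (w1 + w2)) / (w1 - w2)^3` for the circle integral, `w1 + w2 = 2 i z / h`,
`w1 - w2 = - 2 i D / h`.

Proof without residues (real analysis): let `I1 h = ∫ (z + i h cos θ)^(-1)`,
`I2 h = ∫ (z + i h cos θ)^(-2)`. From `d/dθ (sin θ / (z + i h cos θ)) =
(z cos θ + i h) / (z + i h cos θ)^2` and `z cos θ + i h = (- i z / h) (z + i h cos θ) + (i / h) D^2`
one gets `D^2 I2 = z I1`. And `I1' (h) = - ∫ i cos θ / (z + i h cos θ)^2 = -(1/h) (I1 - z I2)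
= - h I1 / D^2`, `I1 0 = 2 π / z`, so `(D I1)' = 0` and `I1 = 2 π / D`, `I2 = 2 π z / D^3`. -/
def S_ANG : Prop :=
  ∀ z h : ℝ, 0 < z →
    ∫ θ in (0 : ℝ)..(2 * Real.pi), (((z : ℂ) + Complex.I * ((h * Real.cos θ : ℝ) : ℂ)) ^ 2)⁻¹ =
      ((2 * Real.pi * z / (Real.sqrt (z ^ 2 + h ^ 2)) ^ 3 : ℝ) : ℂ)

/-- **[ANGS]** The same with a shifted angle. Write `ζ = ‖ζ‖ (cos α + i sin α)`, `α = arg ζ`; then
`ζ.re cos θ + ζ.im sin θ = ‖ζ‖ cos (θ - α)`; the integrand is `2π`-periodic, so
(`Function.Periodic.intervalIntegral_add_eq` and `intervalIntegral.integral_comp_sub_right`) the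
shift may be removed, and `S_ANG` with `h = ‖ζ‖` applies. -/
def S_ANGS : Prop :=
  ∀ (z : ℝ) (ζ : ℂ), 0 < z →
    ∫ θ in (0 : ℝ)..(2 * Real.pi),
      (((z : ℂ) + Complex.I * ((ζ.re * Real.cos θ + ζ.im * Real.sin θ : ℝ) : ℂ)) ^ 2)⁻¹ =
      ((2 * Real.pi * z / (Real.sqrt (z ^ 2 + ‖ζ‖ ^ 2)) ^ 3 : ℝ) : ℂ)

/-- **[GEN]** A generic angle. For `j ≠ k` with `s j = s k` put `ζ j - ζ k = p + i r ≠ 0`. The real
number `x` is bad for the pair if `p + r x = 0`; every pair has at most one bad `x`, so there is a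
real `x` that is not bad for any pair (`Set.Finite.infinite_compl` / `Set.Infinite.nonempty`). Take
`θ0 = arctan x`, `cos θ0 > 0`, `sin θ0 = x cos θ0`; add `2 π` if `θ0 < 0`. If
`s j + i (..) = s k + i (..)` compare real parts (`s j = s k`) and imaginary parts:
`cos θ (p + r x) = 0`, so `p + r x = 0`, so `j = k`. -/
def S_GEN : Prop :=
  ∀ (ι : Type) [Fintype ι] (s : ι → ℝ) (ζ : ι → ℂ), Function.Injective (fun j => (s j, ζ j)) →
    ∃ θ ∈ Set.Icc (0 : ℝ) (2 * Real.pi), Function.Injective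
      (fun j => (s j : ℂ) + Complex.I * (((ζ j).re * Real.cos θ + (ζ j).im * Real.sin θ : ℝ) : ℂ))

/-- **[PD]** The kernel of the force between mirror images is strictly positive definite. For an
angle `θ` put `a j θ = s j + i ((ζ j).re cos θ + (ζ j).im sin θ)`, so `(a j θ).re = s j > 0` and
`a j θ + conj (a k θ) = (s j + s k) + i ((ζ j - ζ k).re cos θ + (ζ j - ζ k).im sin θ)`. Let
`Q θ` be the real part of the double sum in `S_PDA`. `Q` is continuous, `Q ≥ 0`, and by `S_ANGS`
(sums and real part commute with the integral; each term is continuous in `θ` because the real part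
`s j + s k > 0` keeps the base of the inverse away from `0`)
`∫ θ in 0..2π, Q θ = 2 π * ∑ j, ∑ k, v j v k (s j + s k) / (√ ..)^3 = 0`. Hence `Q θ = 0` for all
`θ ∈ [0, 2π]` (`intervalIntegral.integral_pos` or
`Continuous.intervalIntegral_pos..` by contradiction; `Q` is continuous and nonnegative). Take the
`θ` of `S_GEN` and apply the second half of `S_PDA`. -/
def S_PD : Prop :=
  ∀ (ι : Type) [Fintype ι] (s : ι → ℝ) (ζ : ι → ℂ) (v : ι → ℝ), (∀ j, 0 < s j) →
    Function.Injective (fun j => (s j, ζ j)) →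
    ∑ j, ∑ k, v j * v k *
      ((s j + s k) / (Real.sqrt ((s j + s k) ^ 2 + ‖ζ j - ζ k‖ ^ 2)) ^ 3) = 0 → v = 0

/-- **[CO]** Coordinates. Let `F = (ℝ ∙ e)ᗮ`; its dimension `k` is `finrank E - 1 ≤ 2`
(`Submodule.finrank_orthogonal_span_singleton` or `Submodule.finrank_add_finrank_orthogonal`).
Take an orthonormal basis `b` of `F` (`stdOrthonormalBasis ℝ F`) and map `x` to
`∑ i, ⟪b i, x⟫ * c i` with `c 0 = 1`, `c 1 = i` (distinguish `k = 0, 1, 2`).
`‖x‖^2 = ⟪e,x⟫^2 + ‖P x‖^2` with `P` the orthogonal projection to `F` (Pythagoras, `‖e‖ = 1`), and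
`‖P x‖^2 = ∑ i, ⟪b i, x⟫^2`. -/
def S_CO : Prop :=
  ∀ (E : Type) [NormedAddCommGroup E] [InnerProductSpace ℝ E] [FiniteDimensional ℝ E],
    Module.finrank ℝ E ≤ 3 → ∀ e : E, ‖e‖ = 1 →
      ∃ π : E →ₗ[ℝ] ℂ, ∀ x : E, ‖x‖ ^ 2 = (inner ℝ e x) ^ 2 + ‖π x‖ ^ 2

/-- **[AS]** Charges that are antisymmetric under the mirror are not in equilibrium. Let
`s i = ⟪e, q i⟫ - a`. Then `s (σ i) = - s i` (compute `⟪e, mirror e a (q i)⟫`, `‖e‖ = 1`), `σ` is an
involution (`mirror` is one, `q` is injective). If `s i = 0` then `mirror e a (q i) = q i`, so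
`σ i = i` and `v i = - v i`, `v i = 0`. Take `π` from `S_CO`: `π e = 0` (put `x = e`), so
`π (q (σ i)) = π (q i)`.
Let `φ i j = ⟪e, force (q i - q j)⟫`, `φ i j = - φ j i`, and let `R = {i | 0 < s i}`. From the
equilibrium, `0 = ∑ j ∈ R, v j * ⟪e, ∑ i, v i • force (q i - q j)⟫ = ∑ j ∈ R, ∑ i, v j v i φ i j`.
The part `i ∈ R` is `0` by antisymmetry, the part `s i = 0` is `0`, and in the part `s i < 0` we
write `i = σ k`, `k ∈ R` (`Finset.sum_bij` or `Finset.sum_nbij`), `v (σ k) = - v k`,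
`φ (σ k) j = -(s k + s j) / ‖q (σ k) - q j‖^3` and
`‖q (σ k) - q j‖^2 = (s k + s j)^2 + ‖π (q k) - π (q j)‖^2`. So
`∑ j ∈ R, ∑ k ∈ R, v j v k (s j + s k) / (√((s j + s k)^2 + ‖π (q j) - π (q k)‖^2))^3 = 0`. Apply
`S_PD` to the subtype `{i // 0 < s i}` (the pairs `(s i, π (q i))` are distinct because
`‖q i - q j‖^2 = (s i - s j)^2 + ‖π (q i) - π (q j)‖^2` and `q` is injective): `v = 0` on `R`, by
antisymmetry also for `s i < 0`, and `v i = 0` for `s i = 0`. -/
def S_AS : Prop :=
  ∀ (E : Type) [NormedAddCommGroup E] [InnerProductSpace ℝ E] [FiniteDimensional ℝ E],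
    Module.finrank ℝ E ≤ 3 → ∀ (ι : Type) [Fintype ι] (q : ι → E) (v : ι → ℝ) (σ : ι → ι) (e : E)
      (a : ℝ), ‖e‖ = 1 → Function.Injective q → (∀ i, mirror e a (q i) = q (σ i)) →
      (∀ i, v (σ i) = - v i) → (∀ j, ∑ i, v i • force (q i - q j) = 0) → v = 0

/-- **[RP]** Charges in equilibrium in a mirror symmetric configuration are mirror symmetric.
Put `v i = w i - w (σ i)`. `σ` is an involution (see `S_AS`), so `v (σ i) = - v i`. Let
`L x = x - (2 * ⟪e, x⟫) • e`, a linear map with `‖L x‖ = ‖x‖`, so `force (L x) = L (force x)`, and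
`q (σ i) - q (σ j) = L (q i - q j)`. Hence for every `j`, reindexing by the bijection `σ`,
`∑ i, w (σ i) • force (q i - q j) = ∑ i, w i • force (q (σ i) - q j)
 = ∑ i, w i • force (q (σ i) - q (σ (σ j))) = L (∑ i, w i • force (q i - q (σ j))) = 0`. So `v` is
in equilibrium and `S_AS` gives `v = 0`. -/
def S_RP : Prop :=
  ∀ (E : Type) [NormedAddCommGroup E] [InnerProductSpace ℝ E] [FiniteDimensional ℝ E],
    Module.finrank ℝ E ≤ 3 → ∀ (ι : Type) [Fintype ι] (q : ι → E) (w : ι → ℝ) (σ : ι → ι) (e : E)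
      (a : ℝ), ‖e‖ = 1 → Function.Injective q → (∀ i, mirror e a (q i) = q (σ i)) →
      (∀ j, ∑ i, w i • force (q i - q j) = 0) → ∀ i, w (σ i) = w i

/-- **[DYN]** Apply `S_RP` to `q i = X i t` (injective by `h.nocol t`) and to every `w ∈ W n μ`
(`h.equil_W hw t`): `w (σ i) = w i` for all `w ∈ W n μ`. Applied to the shifted vector
`fun j => w (j + r)` (`W_shift`) with `r = k - i`: `w (k + (σ i - i)) = w k` for all `k`. Take
`w j = μ (j + 1) - μ j` (`diff_mem`), and `p = σ i - i`: the function `d k = μ (k + p) - μ k`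
satisfies `d (k + 1) = d k`, so it is constant, `= C`; summing over all `k`: `n C = 0`, `C = 0`. -/
def S_DYN : Prop :=
  ∀ (E : Type) [NormedAddCommGroup E] [InnerProductSpace ℝ E] [FiniteDimensional ℝ E],
    Module.finrank ℝ E ≤ 3 → ∀ (n : ℕ) [NeZero n] (μ : ZMod n → ℝ) (X : ZMod n → ℝ → E) (τ : ℝ),
      Core n μ X τ → ∀ (t : ℝ) (σ : ZMod n → ZMod n) (e : E) (a : ℝ), ‖e‖ = 1 →
      (∀ i, mirror e a (X i t) = X (σ i) t) → ∀ i k : ZMod n, μ (k + (σ i - i)) = μ k

/-- **[INS]** The same for `IsChoreography`. For `n = 0` there is nothing to prove; for `n = k + 1`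
use `h.core` (`Convert.lean`; `bodyZ k x T j t = body (k+1) x T j t` by definition) and `S_DYN`.
`cyc s i = σ i` means `(i + s) % n = σ i`, i.e. `(s : ZMod n) = σ i - i`, and `cyc s k` is
`k + (s : ZMod n)` (`cyc_eq`, `cyc_apply` in `Convert2.lean`). -/
def S_INS : Prop :=
  ∀ (E : Type) [NormedAddCommGroup E] [InnerProductSpace ℝ E] [FiniteDimensional ℝ E],
    Module.finrank ℝ E ≤ 3 → ∀ (n : ℕ) (m : Fin n → ℝ) (x : ℝ → E) (T : ℝ),
      IsChoreography n m x T → ∀ (t : ℝ) (σ : Fin n → Fin n) (e : E) (a : ℝ), ‖e‖ = 1 →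
      (∀ i, mirror e a (body n x T i t) = body n x T (σ i) t) →
      ∀ (i : Fin n) (s : ℕ), cyc s i = σ i → ∀ k : Fin n, m (cyc s k) = m k

/-- **[REV]** A time reversing reflection symmetry. Let `n ≥ 1` and
`t = c / 2 - T / (2 n)`. Then `body i t = x (t + i T / n)` and
`mirror e a (x (t + i T / n)) = x (c - t - i T / n) = x (t + (1 - i) T / n)`, because
`c - 2 t = T / n`. For `i = 0, 1` this is `body (1 - i) t`, for `i ≥ 2` it is, by periodicity,
`x (t + (n + 1 - i) T / n) = body (n + 1 - i) t`. So with `σ i = ⟨(n + 1 - i) % n, _⟩` the hypothesis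
of `S_INS` holds (for `n = 1` everything is trivial: `Fin 1` has one element). As `σ 0 = 1` (for
`n ≥ 2`), `cyc 1 0 = σ 0`, and `S_INS` with `s = 1` gives `m (cyc 1 k) = m k` for all `k`, that is
`m (k + 1 mod n) = m k`; by induction all masses are equal. -/
def S_REV : Prop :=
  ∀ (E : Type) [NormedAddCommGroup E] [InnerProductSpace ℝ E] [FiniteDimensional ℝ E],
    Module.finrank ℝ E ≤ 3 → ∀ (n : ℕ) (m : Fin n → ℝ) (x : ℝ → E) (T : ℝ),
      IsChoreography n m x T → ∀ (c : ℝ) (e : E) (a : ℝ), ‖e‖ = 1 →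
      (∀ t, x (c - t) = mirror e a (x t)) → ∀ i j : Fin n, m i = m j

end Pool.Agent.Lib.MP_c28bf6_an.Mir
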